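import Pool.Agent.KS6_40.LZ.Copies

/-!
# Slices of the unit ball of `Lip_0(M, Y)` contain translates of large balls

`LipZ M o Y` is the space of the Lipschitz maps `M → Y` vanishing at `o`, normed by the least
Lipschitz constant; `slice f α` is the slice `{z : ‖z‖ ≤ 1, f z > 1 - α}` and `convComb lam S` is
the convex combination `∑ lam_i S_i`; `SD2P` is the strong diameter two property.
-/

set_option autoImplicit false

universe u v

namespace Pool.Agent.Results.MP_6460d9_an.BallsInSlices

open Pool.Agent.R280.Lip Pool.Agent.KS6_40.LZ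

/-- Let the pointed metric space `(M, o)` be unbounded or not uniformly discrete and let `Y` be any
normed space (for instance `Y = X*`).

1. For finitely many slices `S_i` of the unit ball of `Lip_0(M, Y)`, given by arbitrary functionals
   of norm one, and `ε > 0` there are points `c ≠ u` of `M` and elements `x_i` such that
   `x_i + (H - H(o))` lies in `S_i` for all `i` and all maps `H : M → Y` of Lipschitz constant at
   most `1 - ε` vanishing off the annulus `ε d(u,c) ≤ d(x,c) ≤ 2 d(u,c)`.
2. There are elements `x_i` and one linear isometric embedding `T : Y → Lip_0(M, Y)` such that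
   `x_i + T v` lies in `S_i` for all `i` and all `v` with `‖v‖ ≤ 1 - ε`.
3. Every convex combination of slices contains a translate of the image of the ball of radius
   `1 - ε` of `Y` under a linear isometric embedding of `Y`.
4. In particular `Lip_0(M, Y)` has the strong diameter two property. -/
theorem result (M : Type u) [MetricSpace M] (o : M)
    (hM : ¬ Bornology.IsBounded (Set.univ : Set M) ∨
      ∀ ε : ℝ, 0 < ε → ∃ x y : M, x ≠ y ∧ dist x y < ε)
    (Y : Type v) [NormedAddCommGroup Y] [NormedSpace ℝ Y] :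
    (∀ (n : ℕ) (f : Fin n → (LipZ M o Y →L[ℝ] ℝ)) (α : Fin n → ℝ),
      (∀ i, ‖f i‖ = 1) → (∀ i, 0 < α i) → ∀ ε : ℝ, 0 < ε →
      (∃ (c u : M) (x : Fin n → LipZ M o Y), u ≠ c ∧
        ∀ (i : Fin n) (H : M → Y) (h : LipZ M o Y),
          (∀ y z, ‖H y - H z‖ ≤ (1 - ε) * dist y z) →
          (∀ y, H y ≠ 0 → ε * dist u c ≤ dist y c ∧ dist y c ≤ 2 * dist u c) →
          (∀ y, h.fn y = H y - H o) → x i + h ∈ slice (f i) (α i)) ∧
      (∃ (x : Fin n → LipZ M o Y) (T : Y →ₗᵢ[ℝ] LipZ M o Y),
        ∀ (i : Fin n) (v : Y), ‖v‖ ≤ 1 - ε → x i + T v ∈ slice (f i) (α i)) ∧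
      ∀ lam : Fin n → ℝ, ∑ i, lam i = 1 →
        ∃ (a : LipZ M o Y) (T : Y →ₗᵢ[ℝ] LipZ M o Y),
          ∀ v : Y, ‖v‖ ≤ 1 - ε → a + T v ∈ convComb lam fun i => slice (f i) (α i)) ∧
    SD2P (LipZ M o Y) := by
  have h : Good M := by
    rcases hM with h | h
    · exact good_of_unbounded o h
    · exact good_of_not_discrete h
  refine ⟨fun n f α hf hα ε hε => ⟨main h n f α hf hα ε hε, copies h n f α hf hα ε hε,
    fun lam hl => comb h n lam f α hl hf hα ε hε⟩, sd2p_of_good h⟩

end Pool.Agent.Results.MP_6460d9_an.BallsInSlices
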